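import Pool.Agent.Helper43K9.PG.Order

/-!
# A right `ω`-bounded Hausdorff paratopological group which is not left `ω`-bounded

Let `Ω = ω₁ ×ₗ ℚ`. The sets `{g | g x ≤ x for all x ∈ E}`, `E ⊆ Ω` finite, are submonoids of the group of
the order automorphisms of `Ω` and form a neighbourhood base at the identity of the topology of a
paratopological group. Since `Ω` has countable coinitiality, this group is right `ω`-bounded; since `Ω` has
uncountable cofinality, it is not left `ω`-bounded. It is not Hausdorff, but its pull back to a free group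
can be refined to a Hausdorff topology with the same properties.
-/

set_option autoImplicit false

open Set Filter Topology
open scoped Pointwise

namespace Pool.Agent.Results.MP_ede847_gt.RightNotLeft

/-- `G` is left `ω`-bounded: `G = F U` for some countable `F`, for every neighbourhood `U` of `1`. -/
def LeftOmegaBounded (G : Type) [Group G] [TopologicalSpace G] : Prop :=
  ∀ U ∈ 𝓝 (1 : G), ∃ F : Set G, F.Countable ∧ F * U = univ

/-- `G` is right `ω`-bounded: `G = U F` for some countable `F`, for every neighbourhood `U` of `1`. -/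
def RightOmegaBounded (G : Type) [Group G] [TopologicalSpace G] : Prop :=
  ∀ U ∈ 𝓝 (1 : G), ∃ F : Set G, F.Countable ∧ U * F = univ

/-! ### Topologies given by submonoids -/

section base

/-- A neighbourhood base at the identity, consisting of submonoids. -/
structure IsBase {G ι : Type} [Group G] (U : ι → Set G) : Prop where
  nonempty : Nonempty ι
  one : ∀ i, 1 ∈ U i
  inter : ∀ i j, ∃ k, U k ⊆ U i ∩ U j
  mul : ∀ i, ∀ a ∈ U i, ∀ b ∈ U i, a * b ∈ U i
  conj : ∀ i g, ∃ j, ∀ u ∈ U j, g⁻¹ * u * g ∈ U i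

variable {G ι : Type} [Group G] {U : ι → Set G}

/-- The topology with the base. -/
@[reducible]
def topo (h : IsBase U) : TopologicalSpace G where
  IsOpen V := ∀ g ∈ V, ∃ i, ∀ u ∈ U i, g * u ∈ V
  isOpen_univ := fun _ _ => by
    obtain ⟨i⟩ := h.nonempty
    exact ⟨i, fun _ _ => mem_univ _⟩
  isOpen_inter := by
    intro s t hs ht g hg
    obtain ⟨i, hi⟩ := hs g hg.1
    obtain ⟨j, hj⟩ := ht g hg.2
    obtain ⟨k, hk⟩ := h.inter i j
    exact ⟨k, fun u hu => ⟨hi u (hk hu).1, hj u (hk hu).2⟩⟩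
  isOpen_sUnion := by
    intro s hs g hg
    obtain ⟨t, ht, hgt⟩ := hg
    obtain ⟨i, hi⟩ := hs t ht g hgt
    exact ⟨i, fun u hu => ⟨t, ht, hi u hu⟩⟩

lemma mem_nhds (h : IsBase U) (g : G) (V : Set G) :
    V ∈ @nhds G (topo h) g ↔ ∃ i, ∀ u ∈ U i, g * u ∈ V := by
  let _ := topo h
  rw [mem_nhds_iff]
  constructor
  · rintro ⟨t, htV, ht, hg⟩
    obtain ⟨i, hi⟩ := (show ∀ g ∈ t, ∃ i, ∀ u ∈ U i, g * u ∈ t from ht) g hg
    exact ⟨i, fun u hu => htV (hi u hu)⟩
  · rintro ⟨i, hi⟩
    refine ⟨{x | ∃ u ∈ U i, g * u = x}, ?_, ?_, ⟨1, h.one i, mul_one g⟩⟩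
    · rintro x ⟨u, hu, rfl⟩
      exact hi u hu
    · show ∀ x ∈ {x | ∃ u ∈ U i, g * u = x}, ∃ j, ∀ v ∈ U j, x * v ∈ {x | ∃ u ∈ U i, g * u = x}
      rintro x ⟨u, hu, rfl⟩
      exact ⟨i, fun v hv => ⟨u * v, h.mul i u hu v hv, (mul_assoc _ _ _).symm⟩⟩

lemma continuousMul (h : IsBase U) : @ContinuousMul G (topo h) _ := by
  let _ := topo h
  refine ⟨continuous_iff_continuousAt.2 fun p => ?_⟩
  obtain ⟨a, b⟩ := p
  intro V hV
  obtain ⟨i, hi⟩ := (mem_nhds h (a * b) V).1 hV
  obtain ⟨j, hj⟩ := h.conj i b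
  rw [mem_map, nhds_prod_eq, mem_prod_iff]
  refine ⟨{x | ∃ u ∈ U j, a * u = x}, (mem_nhds h a _).2 ⟨j, fun u hu => ⟨u, hu, rfl⟩⟩,
    {x | ∃ u ∈ U i, b * u = x}, (mem_nhds h b _).2 ⟨i, fun u hu => ⟨u, hu, rfl⟩⟩, ?_⟩
  rintro ⟨x, y⟩ ⟨⟨u, hu, hx⟩, ⟨v, hv, hy⟩⟩
  show x * y ∈ V
  simp only at hx hy
  rw [← hx, ← hy]
  have := hi _ (h.mul i _ (hj u hu) v hv)
  convert this using 1
  group

end base

/-! ### The group -/

open Pool.Agent.Helper43K9.PG

/-- The generators: infinitely many copies of each order automorphism. -/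
abbrev X : Type := (Om ≃o Om) × ℕ

/-- The group. -/
abbrev Gr : Type := FreeGroup X

/-- The action on the linear order. -/
noncomputable def rho : Gr →* (Om ≃o Om) := FreeGroup.lift Prod.fst

open Classical in
/-- The projection onto the free group of finitely many generators. -/
noncomputable def psi (S : Finset X) : Gr →* FreeGroup {x // x ∈ S} :=
  FreeGroup.lift fun x => if h : x ∈ S then FreeGroup.of ⟨x, h⟩ else 1

lemma psi_of_mem {S : Finset X} {x : X} (h : x ∈ S) :
    psi S (FreeGroup.of x) = FreeGroup.of ⟨x, h⟩ := by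
  unfold psi; rw [FreeGroup.lift_apply_of, dif_pos h]

lemma psi_of_notMem {S : Finset X} {x : X} (h : x ∉ S) : psi S (FreeGroup.of x) = 1 := by
  unfold psi; rw [FreeGroup.lift_apply_of, dif_neg h]

/-- The inclusion of the free group of finitely many generators. -/
def inc (S : Finset X) : FreeGroup {x // x ∈ S} →* Gr := FreeGroup.map Subtype.val

lemma psi_inc (S : Finset X) (r : FreeGroup {x // x ∈ S}) : psi S (inc S r) = r := by
  have : (psi S).comp (inc S) = MonoidHom.id _ := by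
    ext x
    simp only [MonoidHom.comp_apply, inc, FreeGroup.map.of, MonoidHom.id_apply]
    rw [psi_of_mem x.2]
  exact DFunLike.congr_fun this r

lemma psi_mono {S T : Finset X} (hST : S ⊆ T) {g : Gr} (h : psi T g = 1) : psi S g = 1 := by
  have : psi S = ((psi S).comp (inc T)).comp (psi T) := by
    ext x
    simp only [MonoidHom.comp_apply]
    by_cases hx : x ∈ T
    · rw [psi_of_mem hx]
      simp only [inc, FreeGroup.map.of]
    · rw [psi_of_notMem hx, map_one, map_one, psi_of_notMem fun hxS => hx (hST hxS)]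
  rw [this, MonoidHom.comp_apply, h, map_one]

/-- The base at the identity. -/
def U (i : Finset Om × Finset X) : Set Gr := {g | (∀ x ∈ i.1, rho g x ≤ x) ∧ psi i.2 g = 1}

lemma isBase : IsBase U where
  nonempty := inferInstance
  one i := ⟨fun x _ => (congrArg (fun σ : Om ≃o Om => σ x) (map_one rho)).le, map_one _⟩
  inter i j := by
    classical
    refine ⟨(i.1 ∪ j.1, i.2 ∪ j.2), fun g hg => ⟨⟨fun x hx => ?_, ?_⟩, ⟨fun x hx => ?_, ?_⟩⟩⟩
    · exact hg.1 x (Finset.mem_union_left _ hx)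
    · exact psi_mono Finset.subset_union_left hg.2
    · exact hg.1 x (Finset.mem_union_right _ hx)
    · exact psi_mono Finset.subset_union_right hg.2
  mul i a ha b hb := by
    refine ⟨fun x hx => ?_, by rw [map_mul, ha.2, hb.2, mul_one]⟩
    rw [map_mul]
    exact ((rho a).monotone (hb.1 x hx)).trans (ha.1 x hx)
  conj i g := by
    classical
    refine ⟨(i.1.image (rho g), i.2), fun u hu => ⟨fun x hx => ?_, ?_⟩⟩
    · have h1 := hu.1 (rho g x) (Finset.mem_image_of_mem _ hx)
      have h2 := (rho g)⁻¹.monotone h1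
      rw [map_mul, map_mul, map_inv]
      have e : (rho g)⁻¹ (rho g x) = x := (rho g).symm_apply_apply x
      rw [e] at h2
      exact h2
    · rw [map_mul, map_mul, hu.2, map_inv, mul_one, inv_mul_cancel]

lemma inc_psi {S : Finset X} (L : List (X × Bool)) (hL : ∀ p ∈ L, p.1 ∈ S) :
    inc S (psi S (FreeGroup.mk L)) = FreeGroup.mk L := by
  induction L with
  | nil =>
    rw [← FreeGroup.one_eq_mk, map_one, map_one]
  | cons p L ih =>
    have e : FreeGroup.mk (p :: L) = FreeGroup.mk [p] * FreeGroup.mk L := by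
      rw [FreeGroup.mul_mk]; rfl
    rw [e, map_mul, map_mul, ih fun q hq => hL q (List.mem_cons_of_mem _ hq)]
    congr 1
    have hp : p.1 ∈ S := hL p List.mem_cons_self
    have h1 : inc S (psi S (FreeGroup.of p.1)) = FreeGroup.of p.1 := by
      rw [psi_of_mem hp]
      simp only [inc, FreeGroup.map.of]
    obtain ⟨x, b⟩ := p
    cases b with
    | true => exact h1
    | false =>
      have h2 : FreeGroup.mk [(x, false)] = (FreeGroup.of x)⁻¹ := by
        rw [FreeGroup.of, FreeGroup.inv_mk]; rfl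
      rw [h2, map_inv, map_inv, h1]

/-- The group is Hausdorff. -/
lemma t2 : @T2Space Gr (topo isBase) := by
  let _ := topo isBase
  classical
  refine ⟨fun a b hab => ?_⟩
  obtain ⟨S, hS⟩ : ∃ S : Finset X, psi S (a⁻¹ * b) ≠ 1 := by
    refine ⟨((a⁻¹ * b).toWord.map Prod.fst).toFinset, fun h => hab ?_⟩
    have h1 := inc_psi (S := ((a⁻¹ * b).toWord.map Prod.fst).toFinset) (a⁻¹ * b).toWord
      (fun p hp => by
        rw [List.mem_toFinset]
        exact List.mem_map_of_mem hp)
    rw [FreeGroup.mk_toWord, h, map_one] at h1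
    exact inv_mul_eq_one.1 h1.symm
  refine ⟨{g | psi S g = psi S a}, {g | psi S g = psi S b}, ?_, ?_, rfl, rfl, ?_⟩
  · show ∀ g ∈ {g | psi S g = psi S a}, ∃ i, ∀ u ∈ U i, g * u ∈ {g | psi S g = psi S a}
    intro g hg
    refine ⟨(∅, S), fun u hu => ?_⟩
    show psi S (g * u) = _
    rw [map_mul, hu.2, mul_one]
    exact hg
  · show ∀ g ∈ {g | psi S g = psi S b}, ∃ i, ∀ u ∈ U i, g * u ∈ {g | psi S g = psi S b}
    intro g hg
    refine ⟨(∅, S), fun u hu => ?_⟩
    show psi S (g * u) = _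
    rw [map_mul, hu.2, mul_one]
    exact hg
  · rw [Set.disjoint_left]
    intro g h1 h2
    apply hS
    rw [map_mul, map_inv, ← show psi S g = psi S a from h1, ← show psi S g = psi S b from h2,
      inv_mul_cancel]

/-- The group is right `ω`-bounded. -/
lemma right : @RightOmegaBounded Gr _ (topo isBase) := by
  let _ := topo isBase
  intro V hV
  obtain ⟨⟨E, S⟩, hi⟩ := (mem_nhds isBase 1 V).1 hV
  obtain ⟨M, hM⟩ := Finset.exists_le E
  obtain ⟨C, hC, hCc⟩ := exists_coinitial
  choose σ hσ using fun c => exists_move M c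
  obtain ⟨N, hN⟩ : ∃ N : ℕ, ∀ x ∈ S, x.2 < N := by
    refine ⟨S.sup Prod.snd + 1, fun x hx => Nat.lt_succ_of_le (Finset.le_sup (f := Prod.snd) hx)⟩
  set f : FreeGroup {x // x ∈ S} × Om → Gr := fun p =>
    inc S p.1 * FreeGroup.of ((rho (inc S p.1))⁻¹ * (σ p.2)⁻¹, N) with hf
  have f1 : ∀ p, psi S (f p) = p.1 := by
    intro p
    have : ((rho (inc S p.1))⁻¹ * (σ p.2)⁻¹, N) ∉ S := fun h => lt_irrefl _ (hN _ h)
    simp only [hf]
    rw [map_mul, psi_inc, psi_of_notMem this, mul_one]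
  have f2 : ∀ p, rho (f p) = (σ p.2)⁻¹ := by
    intro p
    simp only [hf]
    rw [map_mul]
    have : rho (FreeGroup.of ((rho (inc S p.1))⁻¹ * (σ p.2)⁻¹, N)) =
        (rho (inc S p.1))⁻¹ * (σ p.2)⁻¹ := by
      rw [rho, FreeGroup.lift_apply_of]
    rw [this, mul_inv_cancel_left]
  have hcount : Countable (FreeGroup {x // x ∈ S}) := by
    unfold FreeGroup
    infer_instance
  refine ⟨f '' (univ ×ˢ C), (countable_univ.prod hC).image f, eq_univ_of_forall fun g => ?_⟩
  obtain ⟨y, hy⟩ : ∃ y : Om, ∀ x ∈ E, y ≤ (rho g)⁻¹ x := by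
    classical
    obtain ⟨y, hy⟩ := Finset.exists_le (α := Omᵒᵈ) (E.image fun x => (rho g)⁻¹ x)
    exact ⟨y, fun x hx => hy _ (Finset.mem_image_of_mem _ hx)⟩
  obtain ⟨c, hc, hcy⟩ := hCc y
  refine ⟨g * (f (psi S g, c))⁻¹, ?_, f (psi S g, c), ⟨_, ⟨mem_univ _, hc⟩, rfl⟩, by
    simp⟩
  have := hi (g * (f (psi S g, c))⁻¹) ⟨fun x hx => ?_, ?_⟩
  · rwa [one_mul] at this
  · rw [map_mul, map_inv, f2, inv_inv]
    have h1 : σ c x ≤ σ c M := (σ c).monotone (hM x hx)
    rw [hσ] at h1
    have h2 := (rho g).monotone (h1.trans (hcy.trans (hy x hx)))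
    have e : (rho g) ((rho g)⁻¹ x) = x := (rho g).apply_symm_apply x
    rw [e] at h2
    exact h2
  · rw [map_mul, map_inv, f1, mul_inv_cancel]

/-- The group is not left `ω`-bounded. -/
lemma not_left : ¬ @LeftOmegaBounded Gr _ (topo isBase) := by
  let _ := topo isBase
  intro hL
  obtain ⟨a⟩ : Nonempty Om := inferInstance
  obtain ⟨F, hF, hFU⟩ := hL (U ({a}, ∅)) ((mem_nhds isBase 1 _).2 ⟨_, fun u hu => by
    rw [one_mul]; exact hu⟩)
  obtain ⟨b, hb⟩ := exists_gt_countable (hF.image fun f => rho f a)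
  obtain ⟨σ, hσ⟩ := exists_move a b
  have hg : FreeGroup.of ((σ, 0) : X) ∈ F * U ({a}, ∅) := by
    rw [hFU]; exact mem_univ _
  obtain ⟨f, hf, u, hu, hfu⟩ := hg
  have h1 : rho (FreeGroup.of ((σ, 0) : X)) = σ := by
    rw [rho, FreeGroup.lift_apply_of]
  have h2 : rho f (rho u a) = b := by
    have : rho (f * u) a = b := by
      have e : (f * u) = FreeGroup.of ((σ, 0) : X) := hfu
      rw [e, h1, hσ]
    rwa [map_mul] at this
  have h3 : rho u a ≤ a := hu.1 a (Finset.mem_singleton_self a)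
  have h4 : b ≤ rho f a := by
    rw [← h2]
    exact (rho f).monotone h3
  exact absurd (hb _ ⟨f, hf, rfl⟩) (not_lt.2 h4)

/-- There is a Hausdorff paratopological group which is right `ω`-bounded but not left `ω`-bounded. -/
theorem result : ∃ (G : Type) (_ : Group G) (_ : TopologicalSpace G),
    ContinuousMul G ∧ T2Space G ∧ RightOmegaBounded G ∧ ¬ LeftOmegaBounded G :=
  ⟨Gr, inferInstance, topo isBase, continuousMul isBase, t2, right, not_left⟩

end Pool.Agent.Results.MP_ede847_gt.RightNotLeft
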